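import Pool.Agent.Run7.h619.PR.Iface2
import Pool.Agent.H721R2.Riem
import Pool.Agent.H721R2.PerPt

/-!
# Anosov diffeomorphisms: an iterate is expansive and has the shadowing property (piece HS)

Modelled on `Pool/Agent/H721R2/Riem.lean` and `Pool/Agent/H721R2/PerPt.lean`.
-/

set_option autoImplicit false
set_option linter.unusedSectionVars false

open scoped Manifold ContDiff Topology
open Filter Set

universe w

namespace Run7.h382.PR

open Pool.Agent.H718R2.G Pool.Agent.TH80.OMS Run7.h619.AA Run7.h619.PR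
open Pool.Agent.H721R2 (dm EAnosov IsTangentNorm tnm tnm_compare dg_comp dg_inv iter_smooth
  global_bound iterHomeo exists_hypSys HypSys FRel)

section core

variable {E₀ : Type*} [NormedAddCommGroup E₀] [NormedSpace ℝ E₀] [FiniteDimensional ℝ E₀]
  {M : Type*} [MetricSpace M] [CompactSpace M] [ChartedSpace E₀ M] [IsManifold 𝓘(ℝ, E₀) 1 M]
  {F : Type*} [NormedAddCommGroup F] [NormedSpace ℝ F]

theorem dg_zero (G : M → M) (x : M) (v : E₀) : Pool.Agent.H721R2.dg E₀ (G^[0]) x v = v := by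
  show mfderiv 𝓘(ℝ, E₀) 𝓘(ℝ, E₀) id x v = v
  rw [mfderiv_id]; rfl

theorem iter_bound (e : M → F) (G : M → M) (hG : ContMDiff 𝓘(ℝ, E₀) 𝓘(ℝ, E₀) 1 G) (L : ℝ)
    (hL : 0 ≤ L) (h : ∀ (x : M) (v : E₀),
      ‖dm E₀ e (G x) (Pool.Agent.H721R2.dg E₀ G x v)‖ ≤ L * ‖dm E₀ e x v‖) :
    ∀ (n : ℕ) (x : M) (v : E₀),
      ‖dm E₀ e (G^[n] x) (Pool.Agent.H721R2.dg E₀ (G^[n]) x v)‖ ≤ L ^ n * ‖dm E₀ e x v‖ := by
  intro n
  induction n with
  | zero =>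
    intro x v
    rw [dg_zero, pow_zero, one_mul]
    exact le_rfl
  | succ n ih =>
    intro x v
    rw [Function.iterate_succ, dg_comp _ _ hG (iter_smooth G hG n)]
    refine (ih (G x) _).trans ?_
    rw [pow_succ, mul_assoc]
    exact mul_le_mul_of_nonneg_left (h x v) (pow_nonneg hL n)

/-- from contraction on both subspaces to the ambient data -/
theorem eanosov_of_contr {N : TangentBundle 𝓘(ℝ, E₀) M → ℝ} (hN : IsTangentNorm N)
    (e : M → F) (he : ContMDiff 𝓘(ℝ, E₀) 𝓘(ℝ, F) 1 e)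
    (hinj : ∀ x, Function.Injective (dm E₀ e x))
    (φ : M ≃ₜ M) (hsm : ContMDiff 𝓘(ℝ, E₀) 𝓘(ℝ, E₀) 1 φ)
    (hsm' : ContMDiff 𝓘(ℝ, E₀) 𝓘(ℝ, E₀) 1 φ.symm)
    (Es Eu : M → Submodule ℝ E₀) (C μ : ℝ) (hC : 0 < C) (hμ : 0 < μ) (hμ1 : μ < 1)
    (hcompl : ∀ x, IsCompl (Es x) (Eu x))
    (invs : ∀ (x : M) (v : E₀), v ∈ Es x ↔ Pool.Agent.H721R2.dg E₀ φ x v ∈ Es (φ x))
    (invu : ∀ (x : M) (v : E₀), v ∈ Eu x ↔ Pool.Agent.H721R2.dg E₀ φ x v ∈ Eu (φ x))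
    (cs : ∀ (x : M), ∀ v ∈ Es x, ∀ n : ℕ,
      tnm N (φ^[n] x) (Pool.Agent.H721R2.dg E₀ (φ^[n]) x v) ≤ C * μ ^ n * tnm N x v)
    (cu : ∀ (x : M), ∀ v ∈ Eu x, ∀ n : ℕ,
      tnm N (φ.symm^[n] x) (Pool.Agent.H721R2.dg E₀ (φ.symm^[n]) x v) ≤ C * μ ^ n * tnm N x v) :
    ∃ C' L L' : ℝ, EAnosov (E₀ := E₀) e φ Es Eu C' μ μ L L' := by
  obtain ⟨R, hR, hcmp⟩ := tnm_compare hN e he hinj
  have map1 : ∀ (E : M → Submodule ℝ E₀),
      (∀ (x : M) (v : E₀), v ∈ E x ↔ Pool.Agent.H721R2.dg E₀ φ x v ∈ E (φ x)) →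
      ∀ (n : ℕ) (x : M), ∀ v ∈ E x, Pool.Agent.H721R2.dg E₀ (φ^[n]) x v ∈ E (φ^[n] x) := by
    intro E hE n
    induction n with
    | zero =>
      intro x v hv
      rw [dg_zero]; exact hv
    | succ n ih =>
      intro x v hv
      rw [Function.iterate_succ, dg_comp _ _ hsm (iter_smooth φ hsm n)]
      exact ih _ _ ((hE x v).1 hv)
  have map2 : ∀ (E : M → Submodule ℝ E₀),
      (∀ (x : M) (v : E₀), v ∈ E x ↔ Pool.Agent.H721R2.dg E₀ φ x v ∈ E (φ x)) →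
      ∀ (n : ℕ) (x : M), ∀ v ∈ E x,
        Pool.Agent.H721R2.dg E₀ (φ.symm^[n]) x v ∈ E (φ.symm^[n] x) := by
    intro E hE n
    have base : ∀ (x : M), ∀ v ∈ E x, Pool.Agent.H721R2.dg E₀ φ.symm x v ∈ E (φ.symm x) := by
      intro x v hv
      have h1 := dg_inv φ.symm φ hsm' hsm (fun x => φ.apply_symm_apply x) x v
      rw [hE, h1, Homeomorph.apply_symm_apply]
      exact hv
    induction n with
    | zero =>
      intro x v hv
      rw [dg_zero]; exact hv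
    | succ n ih =>
      intro x v hv
      rw [Function.iterate_succ, dg_comp _ _ hsm' (iter_smooth φ.symm hsm' n)]
      exact ih _ _ (base x v hv)
  set C' := max 1 (R * R * C) with hC'
  have hC'1 : 1 ≤ C' := le_max_left _ _
  have hC'2 : R * R * C ≤ C' := le_max_right _ _
  have trans : ∀ (x y : M) (v w : E₀) (q : ℝ), 0 ≤ q → tnm N y w ≤ C * q * tnm N x v →
      ‖dm E₀ e y w‖ ≤ C' * q * ‖dm E₀ e x v‖ := by
    intro x y v w q hq hle
    have h1 := (hcmp y w).1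
    have h2 := (hcmp x v).2
    calc ‖dm E₀ e y w‖ ≤ R * tnm N y w := h1
      _ ≤ R * (C * q * tnm N x v) := mul_le_mul_of_nonneg_left hle hR.le
      _ ≤ R * (C * q * (R * ‖dm E₀ e x v‖)) := by
          apply mul_le_mul_of_nonneg_left _ hR.le
          exact mul_le_mul_of_nonneg_left h2 (by positivity)
      _ = (R * R * C) * (q * ‖dm E₀ e x v‖) := by ring
      _ ≤ C' * (q * ‖dm E₀ e x v‖) := mul_le_mul_of_nonneg_right hC'2 (by positivity)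
      _ = _ := by ring
  have bd : ∀ (G : M → M), ContMDiff 𝓘(ℝ, E₀) 𝓘(ℝ, E₀) 1 G → ∃ L : ℝ, 1 ≤ L ∧
      ∀ (n : ℕ) (x : M) (v : E₀),
        ‖dm E₀ e (G^[n] x) (Pool.Agent.H721R2.dg E₀ (G^[n]) x v)‖ ≤ C' * L ^ n * ‖dm E₀ e x v‖ := by
    intro G hG
    obtain ⟨B, hB, hBv⟩ := global_bound e he hinj G hG
    have hL1 : (1 : ℝ) ≤ max 1 B := le_max_left _ _
    refine ⟨max 1 B, hL1, fun n x v => ?_⟩
    have h1 := iter_bound e G hG (max 1 B) (by linarith) (fun x v => (hBv x v).trans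
      (mul_le_mul_of_nonneg_right (le_max_right _ _) (norm_nonneg _))) n x v
    have h2 : 0 ≤ (max 1 B) ^ n * ‖dm E₀ e x v‖ := by positivity
    have h3 : 1 * ((max 1 B) ^ n * ‖dm E₀ e x v‖) ≤ C' * ((max 1 B) ^ n * ‖dm E₀ e x v‖) :=
      mul_le_mul_of_nonneg_right hC'1 h2
    rw [one_mul, ← mul_assoc] at h3
    exact h1.trans h3
  obtain ⟨L, hL, hLb⟩ := bd φ.symm hsm'
  obtain ⟨L', hL', hLb'⟩ := bd φ hsm
  refine ⟨C', L, L', {
    smooth := hsm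
    smooth' := hsm'
    compl := hcompl
    C_pos := hC'1
    a_pos := hμ
    b_pos := hμ
    a_lt := hμ1
    b_lt := hμ1
    Ls_le := hL
    Lu_le := hL'
    mapS := map1 Es invs
    mapU := map1 Eu invu
    mapS' := map2 Es invs
    mapU' := map2 Eu invu
    hS := fun n x v hv => trans x _ v _ _ (by positivity) (cs x v hv n)
    hU' := fun n x v hv => trans x _ v _ _ (by positivity) (cu x v hv n)
    hS' := fun n x v _ => hLb n x v
    hU := fun n x v _ => hLb' n x v }⟩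

/-- expansivity and shadowing of an iterate -/
theorem core {e : M → F} (hiso : ∀ x y, dist x y = ‖e x - e y‖)
    (he : ContMDiff 𝓘(ℝ, E₀) 𝓘(ℝ, F) 1 e) (hinj : ∀ x, Function.Injective (dm E₀ e x))
    {f : M ≃ₜ M} {Es Eu : M → Submodule ℝ E₀} {C a b Ls Lu : ℝ}
    (h : EAnosov e f Es Eu C a b Ls Lu) :
    ∃ N : ℕ, 1 ≤ N ∧
      (∃ α : ℝ, 0 < α ∧ ∀ x y : ℤ → M, (∀ i, f^[N] (x i) = x (i + 1)) →
        (∀ i, f^[N] (y i) = y (i + 1)) → (∀ i, ‖e (x i) - e (y i)‖ ≤ α) → x 0 = y 0) ∧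
      ∀ η : ℝ, 0 < η → ∃ δ : ℝ, 0 < δ ∧ ∀ w : ℤ → M,
        (∀ i, ‖e (f^[N] (w i)) - e (w (i + 1))‖ < δ) →
        ∃ y : ℤ → M, (∀ i, f^[N] (y i) = y (i + 1)) ∧ ∀ i, ‖e (y i) - e (w i)‖ < η := by
  obtain ⟨K, hK, hang⟩ := h.angle he hinj
  have hC := h.C_pos
  have t1 : Tendsto (fun n : ℕ => K * (C * a ^ n)) atTop (𝓝 0) := by
    have := ((tendsto_pow_atTop_nhds_zero_of_lt_one h.a_pos.le h.a_lt).const_mul C).const_mul K
    simpa using this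
  have t2 : Tendsto (fun n : ℕ => K * (C * b ^ n)) atTop (𝓝 0) := by
    have := ((tendsto_pow_atTop_nhds_zero_of_lt_one h.b_pos.le h.b_lt).const_mul C).const_mul K
    simpa using this
  obtain ⟨N, ⟨h1, h2⟩, hN⟩ := ((((tendsto_order.mp t1).2 (1 / 16) (by norm_num)).and
    ((tendsto_order.mp t2).2 (1 / 16) (by norm_num))).and (eventually_ge_atTop 1)).exists
  obtain ⟨S, hg, -, -, -, -, hSK⟩ := exists_hypSys hiso he hinj h K hK hang N h1.le h2.le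
  have hSg : ∀ x, S.g x = f^[N] x := fun x => by rw [hg]; rfl
  refine ⟨N, hN, ?_, ?_⟩
  · obtain ⟨T, hTg, -⟩ := S.exists_csys (1 / 2) (1 / 2) (by have := S.a_le; linarith)
      (by have := S.b_le; linarith) le_rfl le_rfl ⌈4 * S.Ls⌉₊ ⌈4 * S.Lu⌉₊ (Nat.le_ceil _)
      (Nat.le_ceil _) 1 one_pos
    have hεs : 0 < T.εs := by
      have := T.δ_le_εs
      have := T.δ_pos
      linarith
    refine ⟨T.εs, hεs, fun x y hx hy hxy => ?_⟩
    have hx' : ∀ n, x (n + 1) = S.g (x n) := fun n => by rw [hSg, hx]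
    have hy' : ∀ n, y (n + 1) = S.g (y n) := fun n => by rw [hSg, hy]
    have hd : ∀ n, dist (x n) (y n) ≤ T.εs := fun n => by rw [hiso]; exact hxy n
    have hS : FRel T.g T.εs (x 0) (y 0) := by
      intro k
      rw [hTg]
      show dist (S.g^[k] (x 0)) (S.g^[k] (y 0)) ≤ _
      rw [← S.orbit_nat x hx' k, ← S.orbit_nat y hy' k]
      exact hd k
    have hU : FRel T.g.symm T.εs (x 0) (y 0) := by
      intro k
      rw [hTg]
      show dist (S.g.symm^[k] (x 0)) (S.g.symm^[k] (y 0)) ≤ _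
      rw [← S.orbit_neg x hx' k, ← S.orbit_neg y hy' k]
      exact hd (-k)
    exact T.expansive le_rfl hS hU
  · intro η hη
    obtain ⟨ε₀, hε₀, hsh⟩ := S.shadowing
    have hK0 : 0 < S.K := by rw [hSK]; linarith
    have hε : 0 < min ε₀ (η / (16 * S.K)) := lt_min hε₀ (by positivity)
    refine ⟨min ε₀ (η / (16 * S.K)), hε, fun w hw => ?_⟩
    obtain ⟨y, hy1, hy2⟩ := hsh (min ε₀ (η / (16 * S.K))) (min_le_left _ _) w (fun n => by
      rw [hSg, hiso]; exact (hw n).le)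
    refine ⟨y, fun i => by rw [hy1, hSg], fun i => ?_⟩
    have h3 := hy2 i
    rw [hiso] at h3
    have h4 : 8 * S.K * min ε₀ (η / (16 * S.K)) ≤ 8 * S.K * (η / (16 * S.K)) :=
      mul_le_mul_of_nonneg_left (min_le_right _ _) (by positivity)
    have h5 : 8 * S.K * (η / (16 * S.K)) = η / 2 := by field_simp; ring
    linarith

end core

section top

variable {E₀ : Type*} [NormedAddCommGroup E₀] [NormedSpace ℝ E₀] [FiniteDimensional ℝ E₀]
  {M : Type*} [TopologicalSpace M] [T2Space M] [CompactSpace M] [ChartedSpace E₀ M]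
  [IsManifold 𝓘(ℝ, E₀) ∞ M]

/-- the norm of a model vector seen as a tangent vector at `x` -/
noncomputable def tn (N : TangentBundle 𝓘(ℝ, E₀) M → ℝ) (x : M) (v : E₀) : ℝ :=
  N ⟨x, (v : TangentSpace 𝓘(ℝ, E₀) x)⟩

theorem top_main {N : TangentBundle 𝓘(ℝ, E₀) M → ℝ} (hN : IsTangentNorm N)
    (φ : M ≃ₜ M) (hsm : ContMDiff 𝓘(ℝ, E₀) 𝓘(ℝ, E₀) 1 φ)
    (hsm' : ContMDiff 𝓘(ℝ, E₀) 𝓘(ℝ, E₀) 1 φ.symm)
    (Es Eu : M → Submodule ℝ E₀) (C μ : ℝ) (hC : 0 < C) (hμ : 0 < μ) (hμ1 : μ < 1)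
    (hcompl : ∀ x, IsCompl (Es x) (Eu x))
    (invs : ∀ (x : M) (v : E₀), v ∈ Es x ↔ Pool.Agent.H721R2.dg E₀ φ x v ∈ Es (φ x))
    (invu : ∀ (x : M) (v : E₀), v ∈ Eu x ↔ Pool.Agent.H721R2.dg E₀ φ x v ∈ Eu (φ x))
    (cs : ∀ (x : M), ∀ v ∈ Es x, ∀ n : ℕ,
      tn N (φ^[n] x) (Pool.Agent.H721R2.dg E₀ (φ^[n]) x v) ≤ C * μ ^ n * tn N x v)
    (cu : ∀ (x : M), ∀ v ∈ Eu x, ∀ n : ℕ,
      tn N (φ.symm^[n] x) (Pool.Agent.H721R2.dg E₀ (φ.symm^[n]) x v) ≤ C * μ ^ n * tn N x v) :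
    ∃ (N m : ℕ) (e : M → V m), 1 ≤ N ∧ Continuous e ∧ Function.Injective e ∧
      (∃ α : ℝ, 0 < α ∧ ∀ x y : ℤ → M, (∀ i, φ^[N] (x i) = x (i + 1)) →
        (∀ i, φ^[N] (y i) = y (i + 1)) → (∀ i, ‖e (x i) - e (y i)‖ ≤ α) → x 0 = y 0) ∧
      ∀ η : ℝ, 0 < η → ∃ δ : ℝ, 0 < δ ∧ ∀ w : ℤ → M,
        (∀ i, ‖e (φ^[N] (w i)) - e (w (i + 1))‖ < δ) →
        ∃ y : ℤ → M, (∀ i, φ^[N] (y i) = y (i + 1)) ∧ ∀ i, ‖e (y i) - e (w i)‖ < η := by
  obtain ⟨m, e, he, hemb, hinj⟩ := exists_embedding_euclidean_of_compact (I := 𝓘(ℝ, E₀)) (M := M)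
  let _ : MetricSpace M := hemb.isEmbedding.comapMetricSpace e
  have hiso : ∀ x y : M, dist x y = ‖e x - e y‖ := fun x y => dist_eq_norm (e x) (e y)
  have he1 : ContMDiff 𝓘(ℝ, E₀) (𝓡 m) 1 e := he.of_le (by simp)
  obtain ⟨C', L, L', hE⟩ := eanosov_of_contr hN e he1 hinj φ hsm hsm' Es Eu C μ hC hμ hμ1 hcompl
    invs invu cs cu
  obtain ⟨k, hk, h1, h2⟩ := core hiso he1 hinj hE
  exact ⟨k, m, e, hk, he.continuous, hemb.injective, h1, h2⟩

end top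

theorem t_HS : S_HS.{w} := by
  intro b B _ _ _ _ r hr g hg
  obtain ⟨-, -, q, Es, Eu, C, μ, hq, hspl, hC, hμ, hμ1, hcs, hcu⟩ := hg
  have hr1 : (1 : WithTop ℕ∞) ≤ (r : WithTop ℕ∞) := by exact_mod_cast hr
  have hN : IsTangentNorm (E := V b) (M := B) (fun p => q p.1 p.2) :=
    { continuous := hq.cont
      pos := fun x v hv => hq.pos x v hv
      smul := fun x c v => hq.smul x c v
      add := fun x v w => hq.add_le x v w }
  exact top_main hN g.toHomeomorph (g.contMDiff.of_le hr1) (g.symm.contMDiff.of_le hr1) Es Eu C μ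
    hC hμ hμ1 (fun x => hspl.compl x trivial) (fun x v => hspl.inv_s x trivial v)
    (fun x v => hspl.inv_u x trivial v) (fun x v hv n => hcs x trivial v hv n)
    (fun x v hv n => hcu x trivial v hv n)

end Run7.h382.PR
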